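import Pool.Agent.TH908.SPL.Pot

set_option autoImplicit false

/-! The amortised cost of one splay operation, with the cap. -/

namespace Pool.Agent.TH908.SPL

open Pool.Agent.H581R2.Splay Tr

theorem climb_potM {M : ℕ} {f : ℕ → ℕ} (x : ℕ) (hx : f x < M) : ∀ (fs : List Fr) (l r : Tr),
    (keys (plug fs (node x l r))).Pairwise (· < ·) →
    GoodM M f (keys (plug fs (node x l r))) →
    (∀ k ∈ keys (plug fs (node x l r)), f k ≤ M) →
    keys (climb x fs l r) = keys (plug fs (node x l r)) ∧
    (fs.length : ℤ) + 2 * Phi M f (climb x fs l r) ≤
      2 * Phi M f (plug fs (node x l r)) +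
        6 * ((mn M f (node x l r) : ℤ) - mn M f (plug fs (node x l r))) + 1 := by
  intro fs
  -- induction on the length, two frames at a time
  induction hn : fs.length using Nat.strong_induction_on generalizing fs with
  | _ n ih =>
    intro l r hs hg hM
    match fs, hn with
    | [], hn =>
      subst hn
      simp only [climb, plug, List.length_nil]
      refine ⟨trivial, ?_⟩
      push_cast
      omega
    | [Fr.inL y c], hn =>
      subst hn
      refine ⟨by simp [climb, plug, plug1, keys], ?_⟩
      simp only [climb, plug, plug1, List.length_singleton]
      have e1 : mn M f (node x l (node y r c)) = mn M f (node y (node x l r) c) := by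
        simp only [mn, min_assoc, min_left_comm]
      have a1 := mn_node_le_l (M := M) (f := f) y (node x l r) c
      have a3 := mn_node_le_r (M := M) (f := f) x l (node y r c)
      rw [e1] at a3
      simp only [Phi]
      rw [e1]
      generalize mn M f (node y (node x l r) c) = m2 at *
      generalize mn M f (node x l r) = m3 at *
      generalize mn M f (node y r c) = m4 at *
      push_cast
      omega
    | [Fr.inR y c], hn =>
      subst hn
      refine ⟨by simp [climb, plug, plug1, keys], ?_⟩
      simp only [climb, plug, plug1, List.length_singleton]
      have e1 : mn M f (node x (node y c l) r) = mn M f (node y c (node x l r)) := by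
        simp only [mn, min_assoc, min_left_comm]
      have a1 := mn_node_le_r (M := M) (f := f) y c (node x l r)
      have a3 := mn_node_le_l (M := M) (f := f) x (node y c l) r
      rw [e1] at a3
      simp only [Phi]
      rw [e1]
      generalize mn M f (node y c (node x l r)) = m2 at *
      generalize mn M f (node x l r) = m3 at *
      generalize mn M f (node y c l) = m4 at *
      push_cast
      omega
    | Fr.inL y c :: Fr.inL z d :: fs, hn =>
      simp only [List.length_cons] at hn
      have hk : keys (node x l (node y r (node z c d))) =
          keys (node z (node y (node x l r) c) d) := by simp [keys]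
      have hp : plug (Fr.inL y c :: Fr.inL z d :: fs) (node x l r) =
          plug fs (node z (node y (node x l r) c) d) := rfl
      rw [hp] at hs hg hM ⊢
      have hk2 : keys (plug fs (node x l (node y r (node z c d)))) =
          keys (plug fs (node z (node y (node x l r) c) d)) := by
        rw [keys_plug, keys_plug, hk]
      have hm : mn M f (node x l (node y r (node z c d))) =
          mn M f (node z (node y (node x l r) c) d) := by
        simp only [mn, min_assoc, min_comm, min_left_comm]
      obtain ⟨i1, i2⟩ := ih fs.length (by omega) fs rfl l (node y r (node z c d))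
        (by rw [hk2]; exact hs) (by rw [hk2]; exact hg) (by rw [hk2]; exact hM)
      have hs' := hs
      have hg' := hg
      rw [keys_plug] at hs' hg'
      have hs2 : (keys (node z (node y (node x l r) c) d)).Pairwise (· < ·) :=
        (List.pairwise_append.1 (List.pairwise_append.1 hs').1).2.1
      have st := zigzigL (M := M) (f := f) x y z l r c d hs2 hx (goodM_infix hs' hg')
        (fun k hk => hM k (by rw [keys_plug]; simp [hk]))
      have pc := phi_plug_congr (M := M) (f := f) fs _ _ hm
      have mc := mn_plug_congr (M := M) (f := f) fs _ _ hm
      refine ⟨by simp only [climb]; rw [i1, hk2], ?_⟩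
      simp only [climb]
      rw [mc] at i2
      rw [hm] at i2
      rw [← hn]
      push_cast
      linarith
    | Fr.inR y c :: Fr.inR z d :: fs, hn =>
      simp only [List.length_cons] at hn
      have hk : keys (node x (node y (node z d c) l) r) =
          keys (node z d (node y c (node x l r))) := by simp [keys]
      have hp : plug (Fr.inR y c :: Fr.inR z d :: fs) (node x l r) =
          plug fs (node z d (node y c (node x l r))) := rfl
      rw [hp] at hs hg hM ⊢
      have hk2 : keys (plug fs (node x (node y (node z d c) l) r)) =
          keys (plug fs (node z d (node y c (node x l r)))) := by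
        rw [keys_plug, keys_plug, hk]
      have hm : mn M f (node x (node y (node z d c) l) r) =
          mn M f (node z d (node y c (node x l r))) := by
        simp only [mn, min_assoc, min_comm, min_left_comm]
      obtain ⟨i1, i2⟩ := ih fs.length (by omega) fs rfl (node y (node z d c) l) r
        (by rw [hk2]; exact hs) (by rw [hk2]; exact hg) (by rw [hk2]; exact hM)
      have hs' := hs
      have hg' := hg
      rw [keys_plug] at hs' hg'
      have hs2 : (keys (node z d (node y c (node x l r)))).Pairwise (· < ·) :=
        (List.pairwise_append.1 (List.pairwise_append.1 hs').1).2.1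
      have st := zigzigR (M := M) (f := f) x y z l r c d hs2 hx (goodM_infix hs' hg')
        (fun k hk => hM k (by rw [keys_plug]; simp [hk]))
      have pc := phi_plug_congr (M := M) (f := f) fs _ _ hm
      have mc := mn_plug_congr (M := M) (f := f) fs _ _ hm
      refine ⟨by simp only [climb]; rw [i1, hk2], ?_⟩
      simp only [climb]
      rw [mc] at i2
      rw [hm] at i2
      rw [← hn]
      push_cast
      linarith
    | Fr.inL y c :: Fr.inR z d :: fs, hn =>
      simp only [List.length_cons] at hn
      have hk : keys (node x (node z d l) (node y r c)) =
          keys (node z d (node y (node x l r) c)) := by simp [keys]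
      have hp : plug (Fr.inL y c :: Fr.inR z d :: fs) (node x l r) =
          plug fs (node z d (node y (node x l r) c)) := rfl
      rw [hp] at hs hg hM ⊢
      have hk2 : keys (plug fs (node x (node z d l) (node y r c))) =
          keys (plug fs (node z d (node y (node x l r) c))) := by
        rw [keys_plug, keys_plug, hk]
      have hm : mn M f (node x (node z d l) (node y r c)) =
          mn M f (node z d (node y (node x l r) c)) := by
        simp only [mn, min_assoc, min_comm, min_left_comm]
      obtain ⟨i1, i2⟩ := ih fs.length (by omega) fs rfl (node z d l) (node y r c)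
        (by rw [hk2]; exact hs) (by rw [hk2]; exact hg) (by rw [hk2]; exact hM)
      have hs' := hs
      have hg' := hg
      rw [keys_plug] at hs' hg'
      have hs2 : (keys (node z d (node y (node x l r) c))).Pairwise (· < ·) :=
        (List.pairwise_append.1 (List.pairwise_append.1 hs').1).2.1
      have st := zigzagL (M := M) (f := f) x y z l r c d hs2 hx (goodM_infix hs' hg')
        (fun k hk => hM k (by rw [keys_plug]; simp [hk]))
      have pc := phi_plug_congr (M := M) (f := f) fs _ _ hm
      have mc := mn_plug_congr (M := M) (f := f) fs _ _ hm
      refine ⟨by simp only [climb]; rw [i1, hk2], ?_⟩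
      simp only [climb]
      rw [mc] at i2
      rw [hm] at i2
      rw [← hn]
      push_cast
      linarith
    | Fr.inR y c :: Fr.inL z d :: fs, hn =>
      simp only [List.length_cons] at hn
      have hk : keys (node x (node y c l) (node z r d)) =
          keys (node z (node y c (node x l r)) d) := by simp [keys]
      have hp : plug (Fr.inR y c :: Fr.inL z d :: fs) (node x l r) =
          plug fs (node z (node y c (node x l r)) d) := rfl
      rw [hp] at hs hg hM ⊢
      have hk2 : keys (plug fs (node x (node y c l) (node z r d))) =
          keys (plug fs (node z (node y c (node x l r)) d)) := by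
        rw [keys_plug, keys_plug, hk]
      have hm : mn M f (node x (node y c l) (node z r d)) =
          mn M f (node z (node y c (node x l r)) d) := by
        simp only [mn, min_assoc, min_comm, min_left_comm]
      obtain ⟨i1, i2⟩ := ih fs.length (by omega) fs rfl (node y c l) (node z r d)
        (by rw [hk2]; exact hs) (by rw [hk2]; exact hg) (by rw [hk2]; exact hM)
      have hs' := hs
      have hg' := hg
      rw [keys_plug] at hs' hg'
      have hs2 : (keys (node z (node y c (node x l r)) d)).Pairwise (· < ·) :=
        (List.pairwise_append.1 (List.pairwise_append.1 hs').1).2.1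
      have st := zigzagR (M := M) (f := f) x y z l r c d hs2 hx (goodM_infix hs' hg')
        (fun k hk => hM k (by rw [keys_plug]; simp [hk]))
      have pc := phi_plug_congr (M := M) (f := f) fs _ _ hm
      have mc := mn_plug_congr (M := M) (f := f) fs _ _ hm
      refine ⟨by simp only [climb]; rw [i1, hk2], ?_⟩
      simp only [climb]
      rw [mc] at i2
      rw [hm] at i2
      rw [← hn]
      push_cast
      linarith


/-- The access lemma. -/
theorem accessM {M : ℕ} {f : ℕ → ℕ} {x : ℕ} {t : Tr} (hb : IsBST t) (hx : x ∈ keys t)
    (hfx : f x < M) (hg : GoodM M f (keys t)) (hM : ∀ k ∈ keys t, f k ≤ M) :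
    keys (splay x t) = keys t ∧
    (dep x t : ℤ) + 2 * Phi M f (splay x t) ≤
      2 * Phi M f t + 6 * ((f x : ℤ) - mn M f t) + 1 := by
  obtain ⟨h1, h2⟩ := locate_spec x t [] hb hx
  have h1' : plug (locate x t []).1 (node x (locate x t []).2.1 (locate x t []).2.2) = t := h1
  have h2' : (locate x t []).1.length = dep x t := by simpa using h2
  have hc := climb_potM (M := M) (f := f) x hfx (locate x t []).1 (locate x t []).2.1
    (locate x t []).2.2 (by rw [h1']; exact hb) (by rw [h1']; exact hg) (by rw [h1']; exact hM)
  rw [h1', h2'] at hc
  obtain ⟨c1, c2⟩ := hc
  refine ⟨c1, ?_⟩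
  have hm : mn M f (node x (locate x t []).2.1 (locate x t []).2.2) ≤ f x := by
    simp only [mn]; omega
  have : (mn M f (node x (locate x t []).2.1 (locate x t []).2.2) : ℤ) ≤ f x := by
    exact_mod_cast hm
  unfold splay
  linarith

end Pool.Agent.TH908.SPL
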