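import Pool.Agent.TH908.SPL.Access

set_option autoImplicit false

/-! Executions with rotations of unit cost anywhere in the tree, and a lower bound for their
cost: the number of nodes of the initial tree which have a requested key in their subtree. -/

namespace Pool.Agent.TH908.SPL

open Pool.Agent.H581R2.Splay Tr

/-- `Rots1 T T' e`: the tree `T'` arises from `T` by `e` rotations (anywhere in the tree). -/
inductive Rots1 : Tr → Tr → ℕ → Prop
  | refl (t : Tr) : Rots1 t t 0
  | step (t t' t'' : Tr) (s e : ℕ) : Rot t t' s → Rots1 t' t'' e → Rots1 t t'' (e + 1)

/-- `Exec T X c`: there is an execution for `(X, T)` of cost `c`: at each step the requested key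
`x` is searched and any number `e` of rotations is performed anywhere in the tree; the step costs
`1 + e` plus the depth of `x` before these rotations. -/
inductive Exec : Tr → List ℕ → ℕ → Prop
  | nil (T : Tr) : Exec T [] 0
  | cons (T T' : Tr) (x : ℕ) (X : List ℕ) (e c : ℕ) :
      Rots1 T T' e → Exec T' X c → Exec T (x :: X) (1 + e + dep x T + c)

/-- The number of nodes with a key of `D` in their subtree. -/
def act (D : ℕ → Prop) [DecidablePred D] : Tr → ℕ
  | nil => 0
  | node a l r => (if ∃ k ∈ keys (node a l r), D k then 1 else 0) + act D l + act D r

variable {D : ℕ → Prop} [DecidablePred D]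

theorem act_rot {T T' : Tr} {s : ℕ} (h : Rot T T' s) : act D T ≤ act D T' + 1 := by
  have key : ∀ {T T' : Tr} {s : ℕ}, Rot T T' s → keys T' = keys T := by
    intro T T' s h
    induction h with
    | right a b A B C => simp [keys]
    | left a b A B C => simp [keys]
    | inl a L L' R s _ ih => simp [keys, ih]
    | inr a L R R' s _ ih => simp [keys, ih]
  induction h with
  | right a b A B C =>
    have e : keys (node b A (node a B C)) = keys (node a (node b A B) C) := by simp [keys]
    simp only [act, e]
    split_ifs <;> omega
  | left a b A B C =>
    have e : keys (node a (node b A B) C) = keys (node b A (node a B C)) := by simp [keys]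
    simp only [act, e]
    split_ifs <;> omega
  | inl a L L' R s hr ih =>
    have e : keys (node a L' R) = keys (node a L R) := by simp [keys, key hr]
    simp only [act, e]
    omega
  | inr a L R R' s hr ih =>
    have e : keys (node a L R') = keys (node a L R) := by simp [keys, key hr]
    simp only [act, e]
    omega

theorem act_rots {T T' : Tr} {e : ℕ} (h : Rots1 T T' e) : act D T ≤ act D T' + e := by
  induction h with
  | refl t => simp
  | step t t' t'' s e hr _ ih =>
    have := act_rot (D := D) hr
    omega

theorem act_zero {t : Tr} (h : ∀ k ∈ keys t, ¬ D k) : act D t = 0 := by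
  induction t with
  | nil => rfl
  | node a l r ihl ihr =>
    simp only [act]
    rw [ihl (fun k hk => h k (by simp [keys, hk])), ihr (fun k hk => h k (by simp [keys, hk])),
      if_neg]
    rintro ⟨k, hk, hD⟩
    exact h k hk hD

/-- adding a key to `D` adds at most the nodes on the path to it -/
theorem act_insert {E : ℕ → Prop} [DecidablePred E] (x : ℕ) (hE : ∀ k, E k → k = x ∨ D k) :
    ∀ t : Tr, IsBST t → act E t ≤ act D t + (dep x t + 1) := by
  intro t
  induction t with
  | nil => intro _; simp [act]
  | node a l r ihl ihr =>
    intro hb
    obtain ⟨hl, hr, h1, h2⟩ := bst_node hb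
    have mono : ∀ (t : Tr), (x ∉ keys t) → act E t ≤ act D t := by
      intro t
      induction t with
      | nil => intro _; simp [act]
      | node a l r ihl ihr =>
        intro hx
        have i1 := ihl (fun h => hx (by simp [keys, h]))
        have i2 := ihr (fun h => hx (by simp [keys, h]))
        simp only [act]
        by_cases hh : ∃ k ∈ keys (node a l r), E k
        · have : ∃ k ∈ keys (node a l r), D k := by
            obtain ⟨k, hk, hEk⟩ := hh
            rcases hE k hEk with h | h
            · exact absurd hk (by rw [h]; exact hx)
            · exact ⟨k, hk, h⟩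
          rw [if_pos hh, if_pos this]
          omega
        · rw [if_neg hh]
          omega
    simp only [act, dep]
    have hif : (if ∃ k ∈ keys (node a l r), E k then 1 else 0) ≤ 1 := by split_ifs <;> omega
    have hif2 : 0 ≤ (if ∃ k ∈ keys (node a l r), D k then 1 else 0) := by omega
    by_cases c1 : x = a
    · rw [if_pos c1]
      have q1 := mono l (fun h => by have := h1 x h; omega)
      have q2 := mono r (fun h => by have := h2 x h; omega)
      omega
    · rw [if_neg c1]
      by_cases c2 : x < a
      · rw [if_pos c2]
        have q1 := ihl hl
        have q2 := mono r (fun h => by have := h2 x h; omega)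
        omega
      · rw [if_neg c2]
        have q1 := mono l (fun h => by have := h1 x h; omega)
        have q2 := ihr hr
        omega

theorem rots1_keys {T T' : Tr} {e : ℕ} (h : Rots1 T T' e) : keys T' = keys T := by
  induction h with
  | refl t => rfl
  | step t t' t'' s e hr _ ih =>
    have : ∀ {T T' : Tr} {s : ℕ}, Rot T T' s → keys T' = keys T := by
      intro T T' s h
      induction h with
      | right a b A B C => simp [keys]
      | left a b A B C => simp [keys]
      | inl a L L' R s _ ih => simp [keys, ih]
      | inr a L R R' s _ ih => simp [keys, ih]
    rw [ih, this hr]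

/-- The lower bound. -/
theorem act_le_exec {T : Tr} {X : List ℕ} {c : ℕ} (h : Exec T X c) :
    IsBST T → act (fun k => k ∈ X) T ≤ c := by
  induction h with
  | nil T => intro _; rw [act_zero (by simp)]
  | cons T T' x X e c hr _ ih =>
    intro hb
    have hb' : IsBST T' := by unfold IsBST; rw [rots1_keys hr]; exact hb
    have h1 := ih hb'
    have h2 := act_rots (D := fun k => k ∈ X) hr
    have h3 := act_insert (D := fun k => k ∈ X) (E := fun k => k ∈ x :: X) x
      (fun k hk => by simpa using hk) T hb
    omega

theorem length_le_exec {T : Tr} {X : List ℕ} {c : ℕ} (h : Exec T X c) : X.length ≤ c := by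
  induction h with
  | nil T => simp
  | cons T T' x X e c hr _ ih =>
    simp only [List.length_cons]
    omega

end Pool.Agent.TH908.SPL
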