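import Pool.Agent.TH908.SPL.Main

set_option autoImplicit false

/-! Level functions, and the comparison theorems. -/

namespace Pool.Agent.TH908.SPL

open Pool.Agent.H581R2.Splay Tr

/-- A set with less than `2 ^ n` elements has a level function without ties with `n` levels. -/
theorem exists_level : ∀ (n : ℕ) (S : Finset ℕ), S.card < 2 ^ n → ∃ f : ℕ → ℕ,
    (∀ k ∈ S, f k < n) ∧
    ∀ k ∈ S, ∀ k' ∈ S, k < k' → f k = f k' → ∃ j ∈ S, k < j ∧ j < k' ∧ f j < f k := by
  intro n
  induction n with
  | zero =>
    intro S hS
    have : S = ∅ := by
      rw [← Finset.card_eq_zero]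
      simpa using hS
    subst this
    exact ⟨fun _ => 0, by simp, by simp⟩
  | succ n ih =>
    intro S hS
    by_cases h0 : S.card < 2 ^ n
    · obtain ⟨f, h1, h2⟩ := ih S h0
      exact ⟨f, fun k hk => Nat.lt_succ_of_lt (h1 k hk), h2⟩
    · push Not at h0
      -- the median
      have hex : ∃ t, 2 ^ n ≤ (S.filter (· < t)).card := by
        refine ⟨S.sup id + 1, ?_⟩
        have : S.filter (· < S.sup id + 1) = S := by
          apply Finset.filter_true_of_mem
          intro k hk
          have := Finset.le_sup (f := id) hk
          simp only [id] at this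
          omega
        rw [this]; exact h0
      classical
      have ht := Nat.find_spec hex
      have hpos : 0 < Nat.find hex := by
        rcases Nat.eq_zero_or_pos (Nat.find hex) with h | h
        · rw [h] at ht
          simp at ht
        · exact h
      obtain ⟨m, hm⟩ : ∃ m, Nat.find hex = m + 1 := ⟨Nat.find hex - 1, by omega⟩
      have hlt : (S.filter (· < m)).card < 2 ^ n := by
        have := Nat.find_min hex (m := m) (by omega)
        push Not at this
        exact this
      rw [hm] at ht
      have hsub : S.filter (· < m + 1) ⊆ insert m (S.filter (· < m)) := by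
        intro k hk
        simp only [Finset.mem_filter, Finset.mem_insert] at hk ⊢
        rcases Nat.lt_or_ge k m with h | h
        · exact Or.inr ⟨hk.1, h⟩
        · left; omega
      have hmS : m ∈ S := by
        by_contra hmS
        have : S.filter (· < m + 1) ⊆ S.filter (· < m) := by
          intro k hk
          simp only [Finset.mem_filter] at hk ⊢
          refine ⟨hk.1, ?_⟩
          rcases Nat.lt_or_ge k m with h | h
          · exact h
          · exact absurd hk.1 (by rw [show k = m by omega]; exact hmS)
        have := Finset.card_le_card this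
        omega
      have hgt : (S.filter (m < ·)).card < 2 ^ n := by
        have hd : Disjoint (S.filter (· < m + 1)) (S.filter (m < ·)) := by
          rw [Finset.disjoint_left]
          intro k hk hk'
          simp only [Finset.mem_filter] at hk hk'
          omega
        have hu : (S.filter (· < m + 1) ∪ S.filter (m < ·)).card ≤ S.card :=
          Finset.card_le_card (Finset.union_subset (Finset.filter_subset _ _)
            (Finset.filter_subset _ _))
        rw [Finset.card_union_of_disjoint hd] at hu
        rw [pow_succ] at hS
        omega
      obtain ⟨f, f1, f2⟩ := ih _ hlt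
      obtain ⟨g, g1, g2⟩ := ih _ hgt
      refine ⟨fun k => if k < m then f k + 1 else if m < k then g k + 1 else 0, ?_, ?_⟩
      · intro k hk
        by_cases c1 : k < m
        · have := f1 k (by simp [hk, c1])
          simp only [if_pos c1]; omega
        · by_cases c2 : m < k
          · have := g1 k (by simp [hk, c2])
            simp only [if_neg c1, if_pos c2]; omega
          · simp only [if_neg c1, if_neg c2]; omega
      · intro k hk k' hk' hlt' he
        by_cases c1 : k < m
        · by_cases c1' : k' < m
          · simp only [if_pos c1, if_pos c1'] at he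
            obtain ⟨j, hj, j1, j2, j3⟩ := f2 k (by simp [hk, c1]) k' (by simp [hk', c1']) hlt'
              (by omega)
            simp only [Finset.mem_filter] at hj
            refine ⟨j, hj.1, j1, j2, ?_⟩
            simp only [if_pos c1, if_pos hj.2]; omega
          · by_cases c2' : m < k'
            · refine ⟨m, hmS, c1, c2', ?_⟩
              simp only [if_pos c1, lt_irrefl, if_false]; omega
            · simp only [if_pos c1, if_neg c1', if_neg c2'] at he
              omega
        · by_cases c2 : m < k
          · have c1' : ¬ k' < m := by omega
            have c2' : m < k' := by omega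
            simp only [if_neg c1, if_pos c2, if_neg c1', if_pos c2'] at he
            obtain ⟨j, hj, j1, j2, j3⟩ := g2 k (by simp [hk, c2]) k' (by simp [hk', c2']) hlt'
              (by omega)
            simp only [Finset.mem_filter] at hj
            refine ⟨j, hj.1, j1, j2, ?_⟩
            have c3 : ¬ j < m := by omega
            simp only [if_neg c1, if_pos c2, if_neg c3, if_pos hj.2]; omega
          · have c1' : ¬ k' < m := by omega
            have c2' : m < k' := by omega
            simp only [if_neg c1, if_neg c2, if_neg c1', if_pos c2'] at he
            omega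

/-- Splaying and the number of distinct requested keys. -/
theorem cost_distinct {T : Tr} {X : List ℕ} (hb : IsBST T) (hX : ∀ x ∈ X, x ∈ keys T) :
    costSplay T X ≤ (6 * Nat.log 2 X.toFinset.card + 2) * X.length +
      (2 * Nat.log 2 X.toFinset.card + 2) * act (fun k => k ∈ X) T := by
  obtain ⟨f, f1, f2⟩ := exists_level (Nat.log 2 X.toFinset.card + 1) X.toFinset
    (Nat.lt_pow_succ_log_self (by norm_num) _)
  set L := Nat.log 2 X.toFinset.card with hL
  have h := cost_level (D := fun k => k ∈ X) (M := L + 1)
    (f := fun k => if k ∈ X then f k else L + 1)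
    (by
      intro k
      by_cases hk : k ∈ X
      · have := f1 k (by simpa using hk)
        simp only [if_pos hk]; omega
      · simp only [if_neg hk]; omega)
    (by
      intro k hk
      have := f1 k (by simpa using hk)
      simp only [if_pos hk]; omega) X T hb
    (by
      intro k _ k' _ hlt he hM
      by_cases c : k ∈ X
      · by_cases c' : k' ∈ X
        · simp only [if_pos c, if_pos c'] at he
          obtain ⟨j, hj, j1, j2, j3⟩ := f2 k (by simpa using c) k' (by simpa using c') hlt he
          have hj' : j ∈ X := by simpa using hj
          refine ⟨j, hX j hj', j1, j2, ?_⟩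
          simp only [if_pos c, if_pos hj']; exact j3
        · simp only [if_pos c, if_neg c'] at he hM
          omega
      · simp only [if_neg c] at hM
        omega)
    (fun x hx => ⟨hX x hx, hx⟩)
  have h2 := phi_le_act (D := fun k => k ∈ X) (M := L + 1)
    (f := fun k => if k ∈ X then f k else L + 1) (fun k hk => by simp only [if_neg hk])
    (by
      intro k
      by_cases hk : k ∈ X
      · have := f1 k (by simpa using hk)
        simp only [if_pos hk]; omega
      · simp only [if_neg hk]; omega) T
  have h3 : (X.map (fun x => ((6 * (if x ∈ X then f x else L + 1) + 2 : ℕ) : ℤ))).sum ≤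
      X.length * (6 * (L : ℤ) + 2) := by
    have : ∀ Y : List ℕ, (∀ y ∈ Y, y ∈ X) →
        (Y.map (fun x => ((6 * (if x ∈ X then f x else L + 1) + 2 : ℕ) : ℤ))).sum ≤
          Y.length * (6 * (L : ℤ) + 2) := by
      intro Y
      induction Y with
      | nil => intro _; simp
      | cons y Y ih =>
        intro hY
        have i := ih (fun z hz => hY z (by simp [hz]))
        have hy := hY y (by simp)
        have := f1 y (by simpa using hy)
        have h4 : ((f y : ℕ) : ℤ) ≤ L := by
          have : f y ≤ L := by omega
          exact_mod_cast this
        simp only [List.map_cons, List.sum_cons, List.length_cons, if_pos hy]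
        push_cast at i ⊢
        linarith
    exact this X (fun _ h => h)
  have h5 : (costSplay T X : ℤ) ≤ (((6 * L + 2) * X.length +
      (2 * L + 2) * act (fun k => k ∈ X) T : ℕ) : ℤ) := by
    push_cast at h2 ⊢
    linarith
  exact_mod_cast h5

/-- Splaying and static trees on the requested keys. -/
theorem cost_static {T R : Tr} {X : List ℕ} {h : ℕ} (hb : IsBST T) (hX : ∀ x ∈ X, x ∈ keys T)
    (hR : IsBST R) (hRX : ∀ k, k ∈ keys R ↔ k ∈ X) (hh : ∀ k ∈ keys R, dep k R ≤ h) :
    costSplay T X + 4 * X.length ≤ 6 * (X.map (fun x => 1 + dep x R)).sum +
      2 * (h + 1) * act (fun k => k ∈ X) T := by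
  have gd := good_dep R hR
  have hle : ∀ k, (if k ∈ X then dep k R else h + 1) ≤ h + 1 := by
    intro k
    by_cases hk : k ∈ X
    · have := hh k ((hRX k).2 hk)
      simp only [if_pos hk]; omega
    · simp only [if_neg hk]; omega
  have h1 := cost_level (D := fun k => k ∈ X) (M := h + 1)
    (f := fun k => if k ∈ X then dep k R else h + 1) hle
    (by
      intro k hk
      have := hh k ((hRX k).2 hk)
      simp only [if_pos hk]; omega) X T hb
    (by
      intro k _ k' _ hlt he hM
      by_cases c : k ∈ X
      · by_cases c' : k' ∈ X
        · simp only [if_pos c, if_pos c'] at he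
          obtain ⟨j, hj, j1, j2, j3⟩ := gd k ((hRX k).2 c) k' ((hRX k').2 c') hlt he
          have hj' : j ∈ X := (hRX j).1 hj
          refine ⟨j, hX j hj', j1, j2, ?_⟩
          simp only [if_pos c, if_pos hj']; exact j3
        · simp only [if_pos c, if_neg c'] at he hM
          omega
      · simp only [if_neg c] at hM
        omega)
    (fun x hx => ⟨hX x hx, hx⟩)
  have h2 := phi_le_act (D := fun k => k ∈ X) (M := h + 1)
    (f := fun k => if k ∈ X then dep k R else h + 1) (fun k hk => by simp only [if_neg hk])
    hle T
  have h3 : (X.map (fun x => ((6 * (if x ∈ X then dep x R else h + 1) + 2 : ℕ) : ℤ))).sum +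
      4 * X.length = 6 * (((X.map (fun x => 1 + dep x R)).sum : ℕ) : ℤ) := by
    have : ∀ Y : List ℕ, (∀ y ∈ Y, y ∈ X) →
        (Y.map (fun x => ((6 * (if x ∈ X then dep x R else h + 1) + 2 : ℕ) : ℤ))).sum +
          4 * Y.length = 6 * (((Y.map (fun x => 1 + dep x R)).sum : ℕ) : ℤ) := by
      intro Y
      induction Y with
      | nil => intro _; simp
      | cons y Y ih =>
        intro hY
        have i := ih (fun z hz => hY z (by simp [hz]))
        have hy := hY y (by simp)
        simp only [List.map_cons, List.sum_cons, List.length_cons, if_pos hy]
        push_cast at i ⊢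
        linarith
    exact this X (fun _ h => h)
  generalize (X.map (fun x => ((6 * (if x ∈ X then dep x R else h + 1) + 2 : ℕ) : ℤ))).sum = S
    at h1 h3
  generalize (X.map (fun x => 1 + dep x R)).sum = B at h3 ⊢
  have h5 : ((costSplay T X + 4 * X.length : ℕ) : ℤ) ≤
      ((6 * B + 2 * (h + 1) * act (fun k => k ∈ X) T : ℕ) : ℤ) := by
    push_cast at h2 h3 ⊢
    linarith
  exact_mod_cast h5

end Pool.Agent.TH908.SPL
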