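import Pool.Agent.TH908.SPL.Exec

set_option autoImplicit false

/-! The comparison of splaying with arbitrary executions for few distinct requested keys. -/

namespace Pool.Agent.TH908.SPL

open Pool.Agent.H581R2.Splay Tr

theorem phi_nonneg (M : ℕ) (f : ℕ → ℕ) : ∀ t : Tr, 0 ≤ Phi M f t := by
  intro t
  induction t with
  | nil => simp [Phi]
  | node a l r ihl ihr =>
    simp only [Phi, mn]
    have : min (f a) (min (mn M f l) (mn M f r)) ≤ f a := by omega
    have : ((min (f a) (min (mn M f l) (mn M f r)) : ℕ) : ℤ) ≤ (f a : ℤ) := by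
      exact_mod_cast this
    linarith

theorem phi_le_act {D : ℕ → Prop} [DecidablePred D] {M : ℕ} {f : ℕ → ℕ}
    (hD : ∀ k, ¬ D k → f k = M) (hM : ∀ k, f k ≤ M) :
    ∀ t : Tr, Phi M f t ≤ (M : ℤ) * act D t := by
  intro t
  induction t with
  | nil => simp [Phi, act]
  | node a l r ihl ihr =>
    simp only [Phi, act]
    by_cases hh : ∃ k ∈ keys (node a l r), D k
    · rw [if_pos hh]
      have h1 : (f a : ℤ) ≤ M := by exact_mod_cast hM a
      have h2 : (0 : ℤ) ≤ (mn M f (node a l r) : ℤ) := by positivity
      push_cast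
      nlinarith
    · rw [if_neg hh]
      have h1 : mn M f (node a l r) = M := by
        apply le_antisymm (mn_le_M _)
        refine mn_ge _ (fun k hk => ?_) le_rfl
        rw [hD k (fun h => hh ⟨k, hk, h⟩)]
      have h2 : f a = M := hD a (fun h => hh ⟨a, by simp [keys], h⟩)
      rw [h1, h2]
      push_cast
      nlinarith

/-- The cost of splaying in terms of a level function on the requested keys. -/
theorem cost_level {D : ℕ → Prop} [DecidablePred D] {M : ℕ} {f : ℕ → ℕ}
    (hM : ∀ k, f k ≤ M) (hDM : ∀ k, D k → f k < M) :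
    ∀ (X : List ℕ) (T : Tr), IsBST T → GoodM M f (keys T) → (∀ x ∈ X, x ∈ keys T ∧ D x) →
      (costSplay T X : ℤ) ≤ (X.map (fun x => ((6 * f x + 2 : ℕ) : ℤ))).sum + 2 * Phi M f T := by
  intro X
  induction X with
  | nil =>
    intro T _ _ _
    simp only [costSplay, List.map_nil, List.sum_nil]
    have := phi_nonneg M f T
    push_cast
    linarith
  | cons x X ih =>
    intro T hb hg hX
    obtain ⟨hx, hxD⟩ := hX x (by simp)
    obtain ⟨a1, a2⟩ := accessM (M := M) (f := f) hb hx (hDM x hxD) hg (fun k _ => hM k)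
    have i := ih (splay x T) (by unfold IsBST; rw [a1]; exact hb) (by rw [a1]; exact hg)
      (fun y hy => by rw [a1]; exact hX y (by simp [hy]))
    simp only [costSplay, List.map_cons, List.sum_cons]
    have hm : (0 : ℤ) ≤ (mn M f T : ℤ) := by positivity
    push_cast at i ⊢
    linarith

end Pool.Agent.TH908.SPL
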