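import Pool.Agent.H581R2.SplayRun

set_option autoImplicit false

/-! The combinatorial access lemma for splaying, for level functions with the cap `M` on the keys
which are never requested. -/

namespace Pool.Agent.TH908.SPL

open Pool.Agent.H581R2.Splay Tr

/-- level functions without ties below the cap `M` -/
def GoodM (M : ℕ) (f : ℕ → ℕ) (K : List ℕ) : Prop :=
  ∀ k ∈ K, ∀ k' ∈ K, k < k' → f k = f k' → f k < M → ∃ j ∈ K, k < j ∧ j < k' ∧ f j < f k

theorem goodM_infix {M : ℕ} {f : ℕ → ℕ} {A B C : List ℕ}
    (hs : (A ++ B ++ C).Pairwise (· < ·)) (hg : GoodM M f (A ++ B ++ C)) : GoodM M f B := by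
  intro k hk k' hk' hlt he hM
  obtain ⟨j, hj, h1, h2, h3⟩ := hg k (by simp [hk]) k' (by simp [hk']) hlt he hM
  refine ⟨j, ?_, h1, h2, h3⟩
  rw [List.pairwise_append, List.pairwise_append] at hs
  obtain ⟨⟨_, _, hAB⟩, _, hC⟩ := hs
  simp only [List.mem_append] at hj
  rcases hj with (hj | hj) | hj
  · have := hAB j hj k hk; omega
  · exact hj
  · have := hC k' (by simp [hk']) j hj; omega

theorem goodM_uniq {M : ℕ} {f : ℕ → ℕ} {t : Tr} (hg : GoodM M f (keys t)) {k k' : ℕ}
    (hk : k ∈ keys t) (hk' : k' ∈ keys t) (h0 : mn M f t < M) (h1 : f k = mn M f t)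
    (h2 : f k' = mn M f t) (hlt : k < k') : False := by
  obtain ⟨j, hj, _, _, h3⟩ := hg k hk k' hk' hlt (h1.trans h2.symm) (by omega)
  have := mn_le_key (M := M) (f := f) hj
  omega

theorem step_auxM {M : ℕ} {f : ℕ → ℕ} {t2 : Tr} (hg : GoodM M f (keys t2)) {k1 k2 : ℕ}
    (h0 : mn M f t2 < M)
    (h1 : k1 ∈ keys t2) (h2 : k2 ∈ keys t2) (hne : k1 ≠ k2) (e1 : f k1 = mn M f t2) :
    mn M f t2 + 1 ≤ f k2 := by
  have := mn_le_key (M := M) (f := f) h2
  by_contra hcon
  have e2 : f k2 = mn M f t2 := by omega
  rcases lt_or_gt_of_ne hne with h | h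
  · exact goodM_uniq hg h1 h2 h0 e1 e2 h
  · exact goodM_uniq hg h2 h1 h0 e2 e1 h

theorem disj_auxM {M : ℕ} {f : ℕ → ℕ} {t2 u v : Tr} (hg : GoodM M f (keys t2))
    (hM : ∀ k ∈ keys t2, f k ≤ M) (h0 : mn M f t2 < M)
    (hu : ∀ k ∈ keys u, k ∈ keys t2) (hv : ∀ k ∈ keys v, k ∈ keys t2) (hun : u ≠ nil)
    (hvn : v ≠ nil)
    (hd : ∀ k ∈ keys u, ∀ k' ∈ keys v, k ≠ k') : 2 * mn M f t2 + 1 ≤ mn M f u + mn M f v := by
  obtain ⟨k1, hk1, e1⟩ := mn_att (M := M) (f := f) (fun k hk => hM k (hu k hk)) hun
  obtain ⟨k2, hk2, e2⟩ := mn_att (M := M) (f := f) (fun k hk => hM k (hv k hk)) hvn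
  have a1 := mn_le_key (M := M) (f := f) (hu k1 hk1)
  have a2 := mn_le_key (M := M) (f := f) (hv k2 hk2)
  by_cases h : f k1 = mn M f t2
  · have := step_auxM hg h0 (hu k1 hk1) (hv k2 hk2) (hd k1 hk1 k2 hk2) h
    omega
  · omega

theorem zigzigL {M : ℕ} {f : ℕ → ℕ} (x y z : ℕ) (l r c d : Tr)
    (hs : (keys (node z (node y (node x l r) c) d)).Pairwise (· < ·))
    (hx : f x < M)
    (hg : GoodM M f (keys (node z (node y (node x l r) c) d)))
    (hM : ∀ k ∈ keys (node z (node y (node x l r) c) d), f k ≤ M) :
    2 + 2 * Phi M f (node x l (node y r (node z c d))) ≤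
      2 * Phi M f (node z (node y (node x l r) c) d) +
        6 * ((mn M f (node x l r) : ℤ) - mn M f (node z (node y (node x l r) c) d)) := by
  have key := disj_auxM (M := M) (u := node x l r) (v := node z c d) hg hM
    (lt_of_le_of_lt (mn_le_key (by simp [keys])) hx)
    (by intro k hk; simp only [keys, List.mem_append, List.mem_cons] at hk ⊢; tauto)
    (by intro k hk; simp only [keys, List.mem_append, List.mem_cons] at hk ⊢; tauto)
    (by simp) (by simp)
    (by
      intro k hk k' hk'
      have : k < k' := by
        have e : keys (node z (node y (node x l r) c) d) =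
            keys (node x l r) ++ (y :: keys (node z c d)) := by simp [keys]
        rw [e, List.pairwise_append] at hs
        exact hs.2.2 k hk k' (by simp [hk'])
      omega)
  have e1 : mn M f (node x l (node y r (node z c d))) = mn M f (node z (node y (node x l r) c) d) := by
    simp only [mn, min_assoc, min_comm, min_left_comm]
  have a1 : mn M f (node z (node y (node x l r) c) d) ≤ mn M f (node y (node x l r) c) := by
    first | exact mn_node_le_l _ _ _ | exact mn_node_le_r _ _ _
  have a2 : mn M f (node y (node x l r) c) ≤ mn M f (node x l r) := by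
    first | exact mn_node_le_l _ _ _ | exact mn_node_le_r _ _ _
  have a3 : mn M f (node z (node y (node x l r) c) d) ≤ mn M f (node y r (node z c d)) := by
    rw [← e1]
    first | exact mn_node_le_l _ _ _ | exact mn_node_le_r _ _ _
  have a4 : mn M f (node z (node y (node x l r) c) d) ≤ mn M f (node z c d) := by
    first
      | (rw [← e1]; exact mn_node_le_l _ _ _)
      | (rw [← e1]; exact mn_node_le_r _ _ _)
      | (refine le_trans a3 ?_; exact mn_node_le_l _ _ _)
      | (refine le_trans a3 ?_; exact mn_node_le_r _ _ _)
  simp only [Phi]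
  rw [e1]
  generalize mn M f (node z (node y (node x l r) c) d) = m2 at *
  generalize mn M f (node y (node x l r) c) = m3 at *
  generalize mn M f (node x l r) = m4 at *
  generalize mn M f (node y r (node z c d)) = m5 at *
  generalize mn M f (node z c d) = m6 at *
  omega

theorem zigzigR {M : ℕ} {f : ℕ → ℕ} (x y z : ℕ) (l r c d : Tr)
    (hs : (keys (node z d (node y c (node x l r)))).Pairwise (· < ·))
    (hx : f x < M)
    (hg : GoodM M f (keys (node z d (node y c (node x l r)))))
    (hM : ∀ k ∈ keys (node z d (node y c (node x l r))), f k ≤ M) :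
    2 + 2 * Phi M f (node x (node y (node z d c) l) r) ≤
      2 * Phi M f (node z d (node y c (node x l r))) +
        6 * ((mn M f (node x l r) : ℤ) - mn M f (node z d (node y c (node x l r)))) := by
  have key := disj_auxM (M := M) (u := node x l r) (v := node z d c) hg hM
    (lt_of_le_of_lt (mn_le_key (by simp [keys])) hx)
    (by intro k hk; simp only [keys, List.mem_append, List.mem_cons] at hk ⊢; tauto)
    (by intro k hk; simp only [keys, List.mem_append, List.mem_cons] at hk ⊢; tauto)
    (by simp) (by simp)
    (by
      intro k hk k' hk'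
      have : k' < k := by
        have e : keys (node z d (node y c (node x l r))) =
            keys (node z d c) ++ (y :: keys (node x l r)) := by simp [keys]
        rw [e, List.pairwise_append] at hs
        exact hs.2.2 k' hk' k (by simp [hk])
      omega)
  have e1 : mn M f (node x (node y (node z d c) l) r) = mn M f (node z d (node y c (node x l r))) := by
    simp only [mn, min_assoc, min_comm, min_left_comm]
  have a1 : mn M f (node z d (node y c (node x l r))) ≤ mn M f (node y c (node x l r)) := by
    first | exact mn_node_le_l _ _ _ | exact mn_node_le_r _ _ _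
  have a2 : mn M f (node y c (node x l r)) ≤ mn M f (node x l r) := by
    first | exact mn_node_le_l _ _ _ | exact mn_node_le_r _ _ _
  have a3 : mn M f (node z d (node y c (node x l r))) ≤ mn M f (node y (node z d c) l) := by
    rw [← e1]
    first | exact mn_node_le_l _ _ _ | exact mn_node_le_r _ _ _
  have a4 : mn M f (node z d (node y c (node x l r))) ≤ mn M f (node z d c) := by
    first
      | (rw [← e1]; exact mn_node_le_l _ _ _)
      | (rw [← e1]; exact mn_node_le_r _ _ _)
      | (refine le_trans a3 ?_; exact mn_node_le_l _ _ _)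
      | (refine le_trans a3 ?_; exact mn_node_le_r _ _ _)
  simp only [Phi]
  rw [e1]
  generalize mn M f (node z d (node y c (node x l r))) = m2 at *
  generalize mn M f (node y c (node x l r)) = m3 at *
  generalize mn M f (node x l r) = m4 at *
  generalize mn M f (node y (node z d c) l) = m5 at *
  generalize mn M f (node z d c) = m6 at *
  omega

theorem zigzagL {M : ℕ} {f : ℕ → ℕ} (x y z : ℕ) (l r c d : Tr)
    (hs : (keys (node z d (node y (node x l r) c))).Pairwise (· < ·))
    (hx : f x < M)
    (hg : GoodM M f (keys (node z d (node y (node x l r) c))))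
    (hM : ∀ k ∈ keys (node z d (node y (node x l r) c)), f k ≤ M) :
    2 + 2 * Phi M f (node x (node z d l) (node y r c)) ≤
      2 * Phi M f (node z d (node y (node x l r) c)) +
        6 * ((mn M f (node x l r) : ℤ) - mn M f (node z d (node y (node x l r) c))) := by
  have key := disj_auxM (M := M) (u := node z d l) (v := node y r c) hg hM
    (lt_of_le_of_lt (mn_le_key (by simp [keys])) hx)
    (by intro k hk; simp only [keys, List.mem_append, List.mem_cons] at hk ⊢; tauto)
    (by intro k hk; simp only [keys, List.mem_append, List.mem_cons] at hk ⊢; tauto)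
    (by simp) (by simp)
    (by
      intro k hk k' hk'
      have : k < k' := by
        have e : keys (node z d (node y (node x l r) c)) =
            keys (node z d l) ++ (x :: keys (node y r c)) := by simp [keys]
        rw [e, List.pairwise_append] at hs
        exact hs.2.2 k hk k' (by simp [hk'])
      omega)
  have e1 : mn M f (node x (node z d l) (node y r c)) = mn M f (node z d (node y (node x l r) c)) := by
    simp only [mn, min_assoc, min_comm, min_left_comm]
  have a1 : mn M f (node z d (node y (node x l r) c)) ≤ mn M f (node y (node x l r) c) := by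
    first | exact mn_node_le_l _ _ _ | exact mn_node_le_r _ _ _
  have a2 : mn M f (node y (node x l r) c) ≤ mn M f (node x l r) := by
    first | exact mn_node_le_l _ _ _ | exact mn_node_le_r _ _ _
  have a3 : mn M f (node z d (node y (node x l r) c)) ≤ mn M f (node y r c) := by
    rw [← e1]
    first | exact mn_node_le_l _ _ _ | exact mn_node_le_r _ _ _
  have a4 : mn M f (node z d (node y (node x l r) c)) ≤ mn M f (node z d l) := by
    first
      | (rw [← e1]; exact mn_node_le_l _ _ _)
      | (rw [← e1]; exact mn_node_le_r _ _ _)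
      | (refine le_trans a3 ?_; exact mn_node_le_l _ _ _)
      | (refine le_trans a3 ?_; exact mn_node_le_r _ _ _)
  simp only [Phi]
  rw [e1]
  generalize mn M f (node z d (node y (node x l r) c)) = m2 at *
  generalize mn M f (node y (node x l r) c) = m3 at *
  generalize mn M f (node x l r) = m4 at *
  generalize mn M f (node y r c) = m5 at *
  generalize mn M f (node z d l) = m6 at *
  omega

theorem zigzagR {M : ℕ} {f : ℕ → ℕ} (x y z : ℕ) (l r c d : Tr)
    (hs : (keys (node z (node y c (node x l r)) d)).Pairwise (· < ·))
    (hx : f x < M)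
    (hg : GoodM M f (keys (node z (node y c (node x l r)) d)))
    (hM : ∀ k ∈ keys (node z (node y c (node x l r)) d), f k ≤ M) :
    2 + 2 * Phi M f (node x (node y c l) (node z r d)) ≤
      2 * Phi M f (node z (node y c (node x l r)) d) +
        6 * ((mn M f (node x l r) : ℤ) - mn M f (node z (node y c (node x l r)) d)) := by
  have key := disj_auxM (M := M) (u := node y c l) (v := node z r d) hg hM
    (lt_of_le_of_lt (mn_le_key (by simp [keys])) hx)
    (by intro k hk; simp only [keys, List.mem_append, List.mem_cons] at hk ⊢; tauto)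
    (by intro k hk; simp only [keys, List.mem_append, List.mem_cons] at hk ⊢; tauto)
    (by simp) (by simp)
    (by
      intro k hk k' hk'
      have : k < k' := by
        have e : keys (node z (node y c (node x l r)) d) =
            keys (node y c l) ++ (x :: keys (node z r d)) := by simp [keys]
        rw [e, List.pairwise_append] at hs
        exact hs.2.2 k hk k' (by simp [hk'])
      omega)
  have e1 : mn M f (node x (node y c l) (node z r d)) = mn M f (node z (node y c (node x l r)) d) := by
    simp only [mn, min_assoc, min_comm, min_left_comm]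
  have a1 : mn M f (node z (node y c (node x l r)) d) ≤ mn M f (node y c (node x l r)) := by
    first | exact mn_node_le_l _ _ _ | exact mn_node_le_r _ _ _
  have a2 : mn M f (node y c (node x l r)) ≤ mn M f (node x l r) := by
    first | exact mn_node_le_l _ _ _ | exact mn_node_le_r _ _ _
  have a3 : mn M f (node z (node y c (node x l r)) d) ≤ mn M f (node y c l) := by
    rw [← e1]
    first | exact mn_node_le_l _ _ _ | exact mn_node_le_r _ _ _
  have a4 : mn M f (node z (node y c (node x l r)) d) ≤ mn M f (node z r d) := by
    first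
      | (rw [← e1]; exact mn_node_le_l _ _ _)
      | (rw [← e1]; exact mn_node_le_r _ _ _)
      | (refine le_trans a3 ?_; exact mn_node_le_l _ _ _)
      | (refine le_trans a3 ?_; exact mn_node_le_r _ _ _)
  simp only [Phi]
  rw [e1]
  generalize mn M f (node z (node y c (node x l r)) d) = m2 at *
  generalize mn M f (node y c (node x l r)) = m3 at *
  generalize mn M f (node x l r) = m4 at *
  generalize mn M f (node y c l) = m5 at *
  generalize mn M f (node z r d) = m6 at *
  omega

end Pool.Agent.TH908.SPL
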